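import Pool.Agent.MP_1246c0_nt.H12.SpecA
import Pool.Agent.MP_db5b97_nt.H21.NT2

/-! The projection formula for the sum of the tame and of the real symbols. -/

namespace Pool.Agent.MP_1246c0_nt.H12

open NumberField IsDedekindDomain Pool.Agent.MP_db5b97_nt.H85
open scoped Pointwise

namespace RB

/-- Summation over the orbits of an involution. -/
theorem fib {X Y : Type} (π : X → Y) (s : X → X) (f : X → F2) (g : Y → F2)
    (hs : Function.Surjective π) (h1 : ∀ x, π (s x) = π x)
    (h2 : ∀ x y, π x = π y → y = x ∨ y = s x) (hf : (Function.support f).Finite)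
    (a : ∀ x, s x = x → f x = g (π x)) (b : ∀ x, s x ≠ x → f x + f (s x) = g (π x)) :
    ∑ᶠ x, f x = ∑ᶠ y, g y := by
  classical
  set S := hf.toFinset with hS
  have hm : ∀ x, x ∈ S ↔ f x ≠ 0 := fun x => by simp [hS]
  rw [finsum_eq_sum_of_support_subset f (s := S ∪ S.image s) fun x hx => by
      simpa using Or.inl ((hm x).2 hx),
    finsum_eq_sum_of_support_subset g (s := S.image π) fun y hy => by
      obtain ⟨x, rfl⟩ := hs y
      rw [Finset.coe_image]
      by_cases h : f x = 0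
      · by_cases h' : s x = x
        · exact (hy ((a x h').symm.trans h)).elim
        · refine ⟨s x, Finset.mem_coe.2 ((hm _).2 fun h0 => hy ?_), h1 x⟩
          rw [← b x h', h, h0, add_zero]
      · exact ⟨x, Finset.mem_coe.2 ((hm _).2 h), rfl⟩,
    ← Finset.sum_fiberwise_of_maps_to (t := S.image π) (g := π)]
  · refine Finset.sum_congr rfl fun y hy => ?_
    obtain ⟨x, hx, rfl⟩ := Finset.mem_image.1 hy
    have e : (S ∪ S.image s).filter (fun z => π z = π x) = {x, s x} := by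
      ext z
      simp only [Finset.mem_filter, Finset.mem_insert, Finset.mem_singleton]
      refine ⟨fun h => h2 x z h.2.symm, ?_⟩
      rintro (rfl | rfl)
      · exact ⟨Finset.mem_union_left _ hx, rfl⟩
      · exact ⟨Finset.mem_union_right _ (Finset.mem_image_of_mem _ hx), h1 x⟩
    rw [e]
    by_cases h : s x = x
    · rw [h, Finset.pair_eq_singleton, Finset.sum_singleton, a x h]
    · rw [Finset.sum_pair (Ne.symm h), b x h]
  · intro z hz
    rcases Finset.mem_union.1 hz with hz | hz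
    · exact Finset.mem_image_of_mem _ hz
    · obtain ⟨x, hx, rfl⟩ := Finset.mem_image.1 hz
      rw [h1]
      exact Finset.mem_image_of_mem _ hx

section One

variable {L : Type} [Field L] [NumberField L]

theorem qv_zero_iff (w : Sp L) (x : L) : qv w x = 0 ↔ ∃ z : L, w.valuation L (x - z ^ 2) < 1 := by
  unfold qv
  split_ifs with h
  · exact iff_of_true rfl h
  · exact iff_of_false one_ne_zero h

theorem f2_eq {x y : F2} (h : x = 0 ↔ y = 0) : x = y := by
  revert x y
  decide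

theorem qv_sq (w : Sp L) (z : L) : qv w (z ^ 2) = 0 := (qv_zero_iff w _).2 ⟨z, by simp⟩

theorem qv_congr (w : Sp L) {x y : L} (h : w.valuation L (x - y) < 1) : qv w x = qv w y := by
  have k : ∀ x y : L, w.valuation L (x - y) < 1 → qv w y = 0 → qv w x = 0 := by
    intro x y h hy
    obtain ⟨z, hz⟩ := (qv_zero_iff w y).1 hy
    refine (qv_zero_iff w x).2 ⟨z, ?_⟩
    rw [← sub_add_sub_cancel x y]
    exact Valuation.map_add_lt _ h hz
  exact f2_eq ⟨k y x (by rwa [Valuation.map_sub_swap]), k x y h⟩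

theorem root_unit (w : Sp L) {x z : L} (hx : w.valuation L x = 1)
    (h : w.valuation L (x - z ^ 2) < 1) : w.valuation L z = 1 := by
  have := Valuation.map_sub_eq_of_lt_left (w.valuation L) (hx ▸ h)
  rw [sub_sub_cancel, hx, map_pow] at this
  exact (pow_eq_one_iff_of_nonneg zero_le two_ne_zero).1 this

/-- the argument of the tame symbol -/
noncomputable def arg (w : Sp L) (a b : Un L) : L :=
  (-1) ^ (ord w a * ord w b) * (ord w b • a - ord w a • b).val

theorem tame_eq (w : Sp L) (a b : Un L) : tame w a b = qv w (arg w a b) := rfl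

theorem arg_unit (w : Sp L) (a b : Un L) : w.valuation L (arg w a b) = 1 := by
  rw [arg, map_mul, map_zpow₀, Valuation.map_neg, map_one, one_zpow, one_mul, ← ord_eq_zero_iff,
    map_sub, map_zsmul, map_zsmul, smul_eq_mul, smul_eq_mul, mul_comm, sub_self]

theorem arg_add (w : Sp L) (a b b' : Un L) : arg w a (b + b') = arg w a b * arg w a b' := by
  simp only [arg]
  rw [map_add, mul_add, zpow_add₀ (by norm_num), mul_mul_mul_comm, ← Un.val_add, add_smul, smul_add]
  congr 2
  abel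

theorem tame_fin (a b : Un L) : (Function.support fun w : Pr L 2 => tame w.1 a b).Finite := by
  refine (((ord_finite L a).union (ord_finite L b)).preimage
    (f := fun w : Pr L 2 => w.1) Subtype.val_injective.injOn).subset fun w hw => ?_
  by_contra h
  simp only [Set.mem_preimage, Set.mem_union, Set.mem_ofPred_eq, not_or, not_not] at h
  apply hw
  have := qv_sq w.1 1
  simpa [tame, h.1, h.2] using this

theorem val_two (w : Pr L 2) : w.1.valuation L 2 = 1 := by
  have h := (val_eq_one_iff w.1 ((2 : ℕ) : 𝓞 L)).2 w.2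
  have e : (((2 : ℕ) : 𝓞 L) : L) = ((2 : ℕ) : L) := map_natCast (algebraMap (𝓞 L) L) 2
  rw [e] at h
  exact h

end One

section Two

variable {F L : Type} [Field F] [NumberField F] [Field L] [NumberField L] [Algebra F L]

omit [NumberField F] in
theorem val_smul (σ : L ≃ₐ[F] L) (w : Sp L) (x : L) :
    (σ • w).valuation L (σ x) = w.valuation L x := by
  by_cases hx : x = 0
  · simp [hx]
  · have := NT2.ord_smul L _ σ w (Un.mk x hx)
    have h1 := val_eq_exp (σ • w) (σ • Un.mk x hx)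
    have h2 := val_eq_exp w (Un.mk x hx)
    rw [this, ← h2] at h1
    exact h1

omit [NumberField F] in
theorem qv_smul (σ : L ≃ₐ[F] L) (w : Sp L) (x : L) : qv (σ • w) (σ x) = qv w x := by
  refine f2_eq ?_
  rw [qv_zero_iff, qv_zero_iff]
  constructor
  · rintro ⟨z, hz⟩
    refine ⟨σ.symm z, ?_⟩
    rwa [← val_smul σ, map_sub, map_pow, σ.apply_symm_apply]
  · rintro ⟨z, hz⟩
    refine ⟨σ z, ?_⟩
    rwa [← map_pow, ← map_sub, val_smul]

omit [NumberField F] in
theorem tame_smul (σ : L ≃ₐ[F] L) (w : Sp L) (a b : Un L) :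
    tame (σ • w) (σ • a) (σ • b) = tame w a b := by
  rw [tame_eq, tame_eq, ← qv_smul σ w]
  congr 1
  simp only [arg, NT2.ord_smul]
  simp [AlgEquiv.smul_def]

theorem val_inc (hu : Unr F L 2) (w : Pr L 2) (x : F) :
    w.1.valuation L (algebraMap F L x) = (und F w.1).valuation F x := by
  rw [NT2.val_inc, hu w, pow_one]

theorem ord_inc (hu : Unr F L 2) (w : Pr L 2) (x : Un F) :
    ord w.1 (Un.inc F L x) = ord (und F w.1) x := by
  rw [NT2.ord_inc, hu w, Nat.cast_one, one_mul]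

theorem qv_inc (hu : Unr F L 2) (w : Pr L 2) {x : F} (h : qv (und F w.1) x = 0) :
    qv w.1 (algebraMap F L x) = 0 := by
  obtain ⟨z, hz⟩ := (qv_zero_iff _ _).1 h
  refine (qv_zero_iff _ _).2 ⟨algebraMap F L z, ?_⟩
  rwa [← map_pow, ← map_sub, val_inc hu]

theorem arg_inc (hu : Unr F L 2) (w : Pr L 2) (a b : Un F) :
    arg w.1 (Un.inc F L a) (Un.inc F L b) = algebraMap F L (arg (und F w.1) a b) := by
  simp only [arg, ord_inc hu]
  simp

variable [IsGalois F L] {σ : L ≃ₐ[F] L}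

omit [NumberField F] [NumberField L] in
theorem fixed (hall : ∀ g : L ≃ₐ[F] L, g = 1 ∨ g = σ) {x : L} (h : σ x = x) :
    ∃ y : F, algebraMap F L y = x :=
  Algebra.IsInvariant.isInvariant (A := F) (G := L ≃ₐ[F] L) x fun g => by
    rcases hall g with rfl | rfl
    · rfl
    · exact h

omit [NumberField F] [NumberField L] [IsGalois F L] in
theorem invol (hall : ∀ g : L ≃ₐ[F] L, g = 1 ∨ g = σ) : σ * σ = 1 := by
  rcases hall σ⁻¹ with h | h
  · rw [inv_eq_one.1 h, one_mul]
  · nth_rewrite 1 [← h]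
    exact inv_mul_cancel σ

omit [NumberField F] [NumberField L] [IsGalois F L] in
theorem invol' (hall : ∀ g : L ≃ₐ[F] L, g = 1 ∨ g = σ) (x : L) : σ (σ x) = x := by
  rw [← AlgEquiv.mul_apply, invol hall, AlgEquiv.one_apply]

omit [NumberField F] in
/-- At a split prime every local integer is congruent to an element of the base field. -/
theorem split_res (hall : ∀ g : L ≃ₐ[F] L, g = 1 ∨ g = σ) {w : Sp L} (hw : σ • w ≠ w) {z : L}
    (hz : w.valuation L z ≤ 1) : ∃ y : F, w.valuation L (algebraMap F L y - z) < 1 := by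
  obtain ⟨a, ha⟩ := w.exists_valuation_sub_lt_of_integer hz 1
  have hc : (σ • w).asIdeal ⊔ w.asIdeal = ⊤ :=
    (σ • w).isMaximal.coprime_of_ne w.isMaximal fun h => hw (HeightOneSpectrum.ext h)
  obtain ⟨e, he, e', he', h1⟩ := Submodule.mem_sup.1 ((Ideal.eq_top_iff_one _).1 hc)
  have hs : σ • e ∈ w.asIdeal := by
    rw [mem_smul_iff, inv_eq_of_mul_eq_one_right (invol hall)] at he
    exact he
  obtain ⟨y, hy⟩ := fixed hall (x := ((e * a : 𝓞 L) : L) + σ ((e * a : 𝓞 L) : L))
    (by rw [map_add, invol' hall, add_comm])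
  refine ⟨y, ?_⟩
  have hm : e * a + σ • (e * a) - a ∈ w.asIdeal := by
    have : e * a + σ • (e * a) - a = σ • e * σ • a - e' * a := by
      rw [smul_mul']
      linear_combination a * h1
    rw [this]
    exact sub_mem (Ideal.mul_mem_right _ _ hs) (Ideal.mul_mem_right _ _ he')
  have h2 := (val_lt_one_iff w _).2 hm
  have e2 : algebraMap F L y - z =
      ((e * a + σ • (e * a) - a : 𝓞 L) : L) + (algebraMap (𝓞 L) L a - z) := by
    rw [hy]
    simp only [map_sub, map_add]
    have : (algebraMap (𝓞 L) L) (σ • (e * a)) = σ ((e * a : 𝓞 L) : L) := rfl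
    rw [this]
    ring
  rw [e2]
  exact Valuation.map_add_lt _ h2 (by simpa using ha)

theorem qv_split (hall : ∀ g : L ≃ₐ[F] L, g = 1 ∨ g = σ) (hu : Unr F L 2) {w : Pr L 2}
    (hw : σ • w.1 ≠ w.1) {x : F} (hx : (und F w.1).valuation F x = 1) :
    qv w.1 (algebraMap F L x) = qv (und F w.1) x := by
  refine f2_eq ⟨fun h => ?_, qv_inc hu w⟩
  obtain ⟨z, hz⟩ := (qv_zero_iff _ _).1 h
  have h1 := root_unit w.1 (by rw [val_inc hu, hx]) hz
  obtain ⟨y, hy⟩ := split_res hall hw h1.le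
  refine (qv_zero_iff _ _).2 ⟨y, ?_⟩
  rw [← val_inc hu, map_sub, map_pow]
  have e : algebraMap F L x - algebraMap F L y ^ 2 = (algebraMap F L x - z ^ 2) -
      (algebraMap F L y - z) * ((algebraMap F L y - z) + 2 * z) := by ring
  rw [e]
  refine Valuation.map_sub_lt _ hz ?_
  rw [map_mul]
  refine mul_lt_one_of_lt_of_le hy (Valuation.map_add_le _ hy.le ?_)
  rw [map_mul, val_two, h1, one_mul]

theorem exists_move (hσ : σ ≠ 1) (hu : Unr F L 2) (w : Pr L 2) :
    ∃ θ : 𝓞 L, σ • θ - θ ∉ w.1.asIdeal := by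
  have : w.1.asIdeal.LiesOver (und F w.1).asIdeal := ⟨rfl⟩
  have := w.1.isPrime
  have := (und F w.1).isMaximal
  have : Finite (𝓞 F ⧸ (und F w.1).asIdeal) :=
    Ideal.finiteQuotientOfFreeOfNeBot _ (und F w.1).ne_bot
  have h := hu w
  rw [← Ideal.ramificationIdxIn_eq_ramificationIdx (und F w.1).asIdeal w.1.asIdeal (L ≃ₐ[F] L),
    ← Ideal.card_inertia_eq_ramificationIdxIn (G := L ≃ₐ[F] L) (und F w.1).asIdeal w.1.asIdeal,
    Subgroup.card_eq_one, eq_bot_iff] at h
  by_contra hn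
  push Not at hn
  exact hσ (h hn)

/-- At an inert prime the units of the base field are squares. -/
theorem qv_inert0 (ra : SRA) (hσ : σ ≠ 1) (hall : ∀ g : L ≃ₐ[F] L, g = 1 ∨ g = σ) (hu : Unr F L 2)
    {w : Pr L 2} (hw : σ • w.1 = w.1) {c : L} (hc : w.1.valuation L c = 1) (hf : σ c = c) :
    qv w.1 c = 0 := by
  obtain ⟨c, rfl⟩ := fixed hall hf
  obtain ⟨θ, hθ⟩ := exists_move hσ hu w
  set t : L := ((σ • θ - θ : 𝓞 L) : L) with ht
  have t1 : w.1.valuation L t = 1 := (val_eq_one_iff _ _).2 hθ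
  have t2 : σ t = -t := by
    have : t = σ (θ : L) - θ := rfl
    rw [this, map_sub, invol' hall, neg_sub]
  obtain ⟨d, hd⟩ := fixed hall (x := t ^ 2) (by rw [map_pow, t2, neg_sq])
  have d1 : (und F w.1).valuation F d = 1 := by rw [← val_inc hu, hd, map_pow, t1, one_pow]
  have d2 : qv (und F w.1) d ≠ 0 := by
    intro h
    obtain ⟨z, hz⟩ := (qv_zero_iff _ _).1 h
    rw [← val_inc hu, map_sub, map_pow, hd, sq_sub_sq, map_mul] at hz
    have e : w.1.valuation L (t + algebraMap F L z) = w.1.valuation L (t - algebraMap F L z) := by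
      rw [← val_smul σ, hw, map_add, t2, σ.commutes, ← Valuation.map_neg]
      congr 1
      ring
    rw [e, ← sq] at hz
    have h1 : w.1.valuation L (t - algebraMap F L z) < 1 :=
      (pow_lt_one_iff_of_nonneg zero_le two_ne_zero).1 hz
    have h2 := Valuation.map_add_lt _ (e ▸ h1) h1
    rw [add_add_sub_cancel, ← two_mul, map_mul, val_two, t1, one_mul] at h2
    exact lt_irrefl _ h2
  rw [val_inc hu] at hc
  by_cases h : qv (und F w.1) c = 0
  · exact qv_inc hu w h
  · have h1 := ra.qmul F (w.und F) c d hc d1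
    have h2 : qv (und F w.1) (c * d) = 0 := by
      refine h1.trans ?_
      change qv (und F w.1) c + qv (und F w.1) d = 0
      generalize qv (und F w.1) c = p at *
      generalize qv (und F w.1) d = q at *
      revert p q
      decide
    have h3 := qv_inc hu w h2
    rw [map_mul, hd, ra.qmul L w _ _ (by rw [val_inc hu, hc]) (by rw [map_pow, t1, one_pow]), qv_sq,
      add_zero] at h3
    exact h3

theorem qv_inert (ra : SRA) (hσ : σ ≠ 1) (hall : ∀ g : L ≃ₐ[F] L, g = 1 ∨ g = σ) (hu : Unr F L 2)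
    {w : Pr L 2} (hw : σ • w.1 = w.1) {y : L} (hy : w.1.valuation L y = 1) {c : F}
    (hc : algebraMap F L c = y * σ y) : qv w.1 y = qv (und F w.1) c := by
  have hv : ∀ x, w.1.valuation L (σ x) = w.1.valuation L x := fun x => by
    conv_lhs => rw [← hw]
    exact val_smul σ _ _
  refine f2_eq ⟨fun h => ?_, fun h => ?_⟩
  · obtain ⟨u, hu1⟩ := (qv_zero_iff _ _).1 h
    have u1 := root_unit w.1 hy hu1
    obtain ⟨z, hz⟩ := fixed hall (x := u * σ u) (by rw [map_mul, invol' hall, mul_comm])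
    refine (qv_zero_iff _ _).2 ⟨z, ?_⟩
    rw [← val_inc hu, map_sub, map_pow, hc, hz]
    have e : y * σ y - (u * σ u) ^ 2 = y * σ (y - u ^ 2) + (y - u ^ 2) * σ u ^ 2 := by
      rw [map_sub, map_pow]; ring
    rw [e]
    refine Valuation.map_add_lt _ ?_ ?_
    · rwa [map_mul, hy, one_mul, hv]
    · rwa [map_mul, map_pow, hv, u1, one_pow, mul_one]
  · obtain ⟨z, hz⟩ := (qv_zero_iff _ _).1 h
    rw [← val_inc hu, map_sub, map_pow, hc] at hz
    set ζ := algebraMap F L z with hζ
    have z1 : w.1.valuation L ζ = 1 := root_unit w.1 (by rw [map_mul, hv, hy, one_mul]) hz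
    have z2 : σ ζ = ζ := σ.commutes z
    rcases (Valuation.map_add_le _ hy.le z1.le).lt_or_eq with h1 | h1
    · rw [qv_congr w.1 (y := -ζ) (by rwa [sub_neg_eq_add])]
      exact qv_inert0 ra hσ hall hu hw (by rwa [Valuation.map_neg]) (by rw [map_neg, z2])
    · have n1 : w.1.valuation L ((y + ζ) * σ (y + ζ)) = 1 := by rw [map_mul, hv, h1, one_mul]
      have n2 := qv_inert0 ra hσ hall hu hw n1 (by rw [map_mul, invol' hall, mul_comm])
      have n3 := ra.qmul L w _ _ hy n1
      have n4 := ra.qmul L w ζ ((y + ζ) ^ 2) z1 (by rw [map_pow, h1, one_pow])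
      rw [qv_sq, qv_inert0 ra hσ hall hu hw z1 z2, add_zero] at n4
      rw [n2, add_zero, qv_congr w.1 (y := ζ * (y + ζ) ^ 2), n4] at n3
      · exact n3.symm
      · have e : y * ((y + ζ) * σ (y + ζ)) - ζ * (y + ζ) ^ 2 = (y + ζ) * (y * σ y - ζ ^ 2) := by
          rw [map_add, z2]; ring
        rwa [e, map_mul, h1, one_mul]

theorem tame_split (ra : SRA) (hall : ∀ g : L ≃ₐ[F] L, g = 1 ∨ g = σ) (hu : Unr F L 2)
    {w : Pr L 2} (hw : σ • w.1 ≠ w.1) (a c : Un F) (b : Un L) (hc : Un.inc F L c = b + σ • b) :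
    tame w.1 (Un.inc F L a) b + tame (σ • w.1) (Un.inc F L a) b = tame (und F w.1) a c := by
  have h1 := tame_smul σ w.1 (Un.inc F L a) (σ • b)
  rw [smul_smul, invol hall, one_smul, show σ • Un.inc F L a = Un.inc F L a from
    Un.ext (σ.commutes _)] at h1
  rw [h1, tame_eq, tame_eq, ← ra.qmul L w _ _ (arg_unit _ _ _) (arg_unit _ _ _), ← arg_add, ← hc,
    arg_inc hu, qv_split hall hu hw (arg_unit _ _ _), tame_eq]

theorem tame_inert (ra : SRA) (hσ : σ ≠ 1) (hall : ∀ g : L ≃ₐ[F] L, g = 1 ∨ g = σ) (hu : Unr F L 2)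
    {w : Pr L 2} (hw : σ • w.1 = w.1) (a c : Un F) (b : Un L) (hc : Un.inc F L c = b + σ • b) :
    tame w.1 (Un.inc F L a) b = tame (und F w.1) a c := by
  rw [tame_eq, tame_eq]
  refine qv_inert ra hσ hall hu hw (arg_unit _ _ _) ?_
  rw [← arg_inc hu, hc, arg_add]
  congr 1
  have h1 : ord w.1 (σ • b) = ord w.1 b := by
    conv_lhs => rw [← hw]
    exact NT2.ord_smul _ _ _ _ _
  simp only [arg, h1]
  simp [AlgEquiv.smul_def]

theorem tame_sum (ra : SRA) (hσ : σ ≠ 1) (hall : ∀ g : L ≃ₐ[F] L, g = 1 ∨ g = σ) (hu : Unr F L 2)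
    (a c : Un F) (b : Un L) (hc : Un.inc F L c = b + σ • b) :
    ∑ᶠ w : Pr L 2, tame w.1 (Un.inc F L a) b = ∑ᶠ v : Pr F 2, tame v.1 a c := by
  refine fib (fun w : Pr L 2 => w.und F) (fun w => σ • w) _ _ (fun v => ?_) (fun w => ?_)
    (fun w w' h => ?_) (tame_fin _ _) (fun w h => ?_) fun w h => ?_
  · obtain ⟨w, hw⟩ := NT2.und_surj F L v.1
    exact ⟨⟨w, fun h => v.2 (hw ▸ (NT2.nat_mem F 2 w).2 h)⟩, Subtype.ext hw⟩
  · exact Subtype.ext (HeightOneSpectrum.ext (Ideal.under_smul (𝓞 F) w.1.asIdeal σ))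
  · have h1 := w.1.isPrime
    have h2 := w'.1.isPrime
    obtain ⟨s, hs⟩ := Algebra.IsInvariant.exists_smul_of_under_eq (𝓞 F) (𝓞 L) (L ≃ₐ[F] L)
      w.1.asIdeal w'.1.asIdeal (congrArg (fun v : Pr F 2 => v.1.asIdeal) h)
    have e : w' = s • w := Subtype.ext (HeightOneSpectrum.ext hs)
    rcases hall s with rfl | rfl
    · exact Or.inl (e.trans (one_smul _ _))
    · exact Or.inr e
  · exact tame_inert ra hσ hall hu (congrArg Subtype.val h) a c b hc
  · exact tame_split ra hall hu (fun h' => h (Subtype.ext h')) a c b hc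

omit [NumberField F] in
open Classical in
theorem real_sum [IsTotallyReal L] (hσ : σ ≠ 1) (hall : ∀ g : L ≃ₐ[F] L, g = 1 ∨ g = σ)
    (a c : F) {b : L} (hb : b ≠ 0) (hc : algebraMap F L c = b * σ b) :
    (∑ᶠ ρ : L →+* ℝ, if ρ (algebraMap F L a) < 0 ∧ ρ b < 0 then (1 : F2) else 0) =
      ∑ᶠ ρ : F →+* ℝ, if ρ a < 0 ∧ ρ c < 0 then (1 : F2) else 0 := by
  refine fib (fun ρ : L →+* ℝ => ρ.comp (algebraMap F L)) (fun ρ => ρ.comp (σ : L →+* L)) _ _
    (fun ρ => ?_) (fun ρ => ?_) (fun ρ ρ' h => ?_) (Set.toFinite _) (fun ρ h => ?_) fun ρ _ => ?_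
  · refine ⟨(IsTotallyReal.complexEmbedding_isReal
      (ComplexEmbedding.lift L (Complex.ofRealHom.comp ρ))).embedding, ?_⟩
    ext x
    apply Complex.ofReal_injective
    rw [RingHom.comp_apply, ComplexEmbedding.IsReal.coe_embedding_apply,
      ComplexEmbedding.lift_algebraMap_apply]
    rfl
  · ext x
    simp
  · obtain ⟨g, hg⟩ := ComplexEmbedding.exists_comp_symm_eq_of_comp_eq (k := F)
      (Complex.ofRealHom.comp ρ) (Complex.ofRealHom.comp ρ')
      (by rw [RingHom.comp_assoc, RingHom.comp_assoc]; exact congrArg _ h)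
    have e : ∀ x, ρ' x = ρ (g.symm x) := fun x =>
      Complex.ofReal_injective (RingHom.congr_fun hg x).symm
    rcases hall g.symm with h1 | h1
    · exact Or.inl (RingHom.ext fun x => by rw [e, h1]; rfl)
    · exact Or.inr (RingHom.ext fun x => by rw [e, h1]; rfl)
  · exact (hσ (AlgEquiv.ext fun x => ρ.injective (RingHom.congr_fun h x))).elim
  · simp only [RingHom.comp_apply, hc, map_mul, RingHom.coe_coe, AlgEquiv.commutes]
    have h1 : ρ b ≠ 0 := by simpa using hb
    have h2 : ρ (σ b) ≠ 0 := by simpa using hb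
    by_cases h0 : ρ (algebraMap F L a) < 0
    · rcases h1.lt_or_gt with h1 | h1 <;> rcases h2.lt_or_gt with h2 | h2
      · rw [if_pos ⟨h0, h1⟩, if_pos ⟨h0, h2⟩, if_neg fun h => h.2.not_gt (mul_pos_of_neg_of_neg h1 h2)]
        rfl
      · rw [if_pos ⟨h0, h1⟩, if_neg fun h => h.2.not_gt h2, if_pos ⟨h0, mul_neg_of_neg_of_pos h1 h2⟩,
          add_zero]
      · rw [if_neg fun h => h.2.not_gt h1, if_pos ⟨h0, h2⟩, if_pos ⟨h0, mul_neg_of_pos_of_neg h1 h2⟩,
          zero_add]
      · rw [if_neg fun h => h.2.not_gt h1, if_neg fun h => h.2.not_gt h2,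
          if_neg fun h => h.2.not_gt (mul_pos h1 h2), add_zero]
    · simp [h0]

end Two

end RB

theorem rowRB : OfRB := by
  intro ra F L _ _ _ _ _ h2 hu hr a b
  have : Algebra.IsQuadraticExtension F L := ⟨h2⟩
  have hG : Nat.card (L ≃ₐ[F] L) = 2 := (IsGalois.card_aut_eq_finrank F L).trans h2
  obtain ⟨σ, hσ, hall⟩ := (Nat.card_eq_two_iff' (1 : L ≃ₐ[F] L)).1 hG
  have hall' : ∀ g : L ≃ₐ[F] L, g = 1 ∨ g = σ := fun g => or_iff_not_imp_left.2 (hall g)
  have hc : Un.inc F L (Un.nrm F L b) = b + σ • b := by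
    rw [NT2.inc_nrm F L _ σ 2 Nat.prime_two hG hσ, Nm_apply]
    simp [Finset.sum_range_succ]
  unfold dy
  rw [RB.tame_sum ra hσ hall' hu a _ b hc]
  congr 1
  exact RB.real_sum hσ hall' a.val _ b.val_ne (congrArg Un.val hc)

end Pool.Agent.MP_1246c0_nt.H12
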